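import Mathlib

set_option autoImplicit false

open Matrix

namespace Pool.Agent.Results.MP_336050_an.NotMinimal

lemma common {V ι : Type} [AddCommGroup V] [Module ℂ V] [FiniteDimensional ℂ V] [Nontrivial V]
    (T : ι → Module.End ℂ V) (hT : ∀ i j, Commute (T i) (T j)) :
    ∃ v : V, v ≠ 0 ∧ ∀ i, ∃ c : ℂ, T i v = c • v := by
  have hex : ∃ d, ∃ W : Submodule ℂ V, W ≠ ⊥ ∧ (∀ i, ∀ x ∈ W, T i x ∈ W) ∧
      Module.finrank ℂ W = d := ⟨_, ⊤, top_ne_bot, fun _ _ _ => trivial, rfl⟩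
  classical
  obtain ⟨W, hW, hinv, hd⟩ := Nat.find_spec hex
  obtain ⟨v, hv, hv0⟩ := Submodule.exists_mem_ne_zero_of_ne_bot hW
  refine ⟨v, hv0, fun i => ?_⟩
  haveI : Nontrivial W := Submodule.nontrivial_iff_ne_bot.2 hW
  obtain ⟨c, hc⟩ := Module.End.exists_eigenvalue ((T i).restrict (hinv i))
  obtain ⟨w, hw⟩ := hc.exists_hasEigenvector
  have hw1 : T i w = c • (w : V) := congrArg Subtype.val hw.apply_eq_smul
  let W' : Submodule ℂ V := W ⊓ Module.End.eigenspace (T i) c
  have h1 : W' ≠ ⊥ := by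
    rw [Submodule.ne_bot_iff]
    exact ⟨w, ⟨w.2, Module.End.mem_eigenspace_iff.2 hw1⟩, fun h => hw.2 (Subtype.ext h)⟩
  have h2 : ∀ j, ∀ x ∈ W', T j x ∈ W' := by
    intro j x hx
    refine ⟨hinv j x hx.1, Module.End.mem_eigenspace_iff.2 ?_⟩
    have := Module.End.mem_eigenspace_iff.1 hx.2
    rw [← Module.End.mul_apply, (hT i j).eq, Module.End.mul_apply, this, map_smul]
  have h3 : W' = W := Submodule.eq_of_le_of_finrank_le inf_le_left
    (hd ▸ Nat.find_min' hex ⟨W', h1, h2, rfl⟩)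
  have : v ∈ W' := h3 ▸ hv
  exact ⟨c, Module.End.mem_eigenspace_iff.1 this.2⟩

theorem result (n m : ℕ) (hn : 3 ≤ n) (A : Fin m → Matrix (Fin n) (Fin n) ℝ)
    (hA : ∀ i j, A i * A j = A j * A i) :
    ∃ x : Fin n → ℝ, x ≠ 0 ∧
      ¬ Dense {y | ∃ k : Fin m → ℕ, y = (List.ofFn (fun i => A i ^ k i)).prod *ᵥ x} := by
  haveI : Nonempty (Fin n) := ⟨⟨0, by omega⟩⟩
  obtain ⟨v, hv, hc⟩ := common (fun i => Matrix.toLin' ((A i).map Complex.ofRealHom))
    (fun i j => by
      change _ ∘ₗ _ = _ ∘ₗ _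
      rw [← Matrix.toLin'_mul, ← Matrix.toLin'_mul, ← Matrix.map_mul, ← Matrix.map_mul, hA])
  let a : Fin n → ℝ := fun r => (v r).re
  let b : Fin n → ℝ := fun r => (v r).im
  let W : Submodule ℝ (Fin n → ℝ) := Submodule.span ℝ (Set.range ![a, b])
  have ha : a ∈ W := Submodule.subset_span ⟨0, rfl⟩
  have hb : b ∈ W := Submodule.subset_span ⟨1, rfl⟩
  have inv : ∀ i, ∀ x ∈ W, A i *ᵥ x ∈ W := by
    intro i x hx
    obtain ⟨c, hc⟩ := hc i
    have h1 : A i *ᵥ a = c.re • a - c.im • b := by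
      ext r
      have := congrArg Complex.re (congrFun hc r)
      simpa [mulVec, dotProduct, a, b] using this
    have h2 : A i *ᵥ b = c.re • b + c.im • a := by
      ext r
      have := congrArg Complex.im (congrFun hc r)
      simpa [mulVec, dotProduct, a, b] using this
    induction hx using Submodule.span_induction with
    | mem x hx =>
      obtain ⟨j, rfl⟩ := hx
      fin_cases j
      · exact h1 ▸ W.sub_mem (W.smul_mem _ ha) (W.smul_mem _ hb)
      · exact h2 ▸ W.add_mem (W.smul_mem _ hb) (W.smul_mem _ ha)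
    | zero => simp
    | add x y _ _ hx hy => rw [mulVec_add]; exact W.add_mem hx hy
    | smul c x _ hx => rw [mulVec_smul]; exact W.smul_mem _ hx
  have invp : ∀ i k, ∀ x ∈ W, A i ^ k *ᵥ x ∈ W := by
    intro i k
    induction k with
    | zero => simp
    | succ k ih => intro x hx; rw [pow_succ, ← mulVec_mulVec]; exact ih _ (inv i x hx)
  have invl : ∀ l : List (Matrix (Fin n) (Fin n) ℝ), (∀ B ∈ l, ∀ x ∈ W, B *ᵥ x ∈ W) →
      ∀ x ∈ W, l.prod *ᵥ x ∈ W := by
    intro l
    induction l with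
    | nil => simp
    | cons B l ih =>
      intro h x hx
      rw [List.prod_cons, ← mulVec_mulVec]
      exact h B (by simp) _ (ih (fun C hC => h C (by simp [hC])) x hx)
  have hx : ∃ x ∈ W, x ≠ 0 := by
    by_contra h
    push Not at h
    exact hv (funext fun r => Complex.ext (congrFun (h a ha) r) (congrFun (h b hb) r))
  obtain ⟨x, hxW, hx0⟩ := hx
  refine ⟨x, hx0, fun hd => ?_⟩
  have hsub : {y | ∃ k : Fin m → ℕ, y = (List.ofFn (fun i => A i ^ k i)).prod *ᵥ x} ⊆ W := by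
    rintro _ ⟨k, rfl⟩
    refine invl _ (fun B hB => ?_) x hxW
    obtain ⟨i, rfl⟩ := List.mem_ofFn.1 hB
    exact invp i _
  have htop : W = ⊤ := by
    have := (hd.mono hsub).closure_eq
    rw [W.closed_of_finiteDimensional.closure_eq] at this
    exact Submodule.eq_top_iff'.2 fun y => by
      have h : y ∈ (W : Set _) := this ▸ Set.mem_univ y
      exact h
  have h2 : Module.finrank ℝ W ≤ 2 := by
    have := finrank_range_le_card (R := ℝ) ![a, b]
    exact this.trans (by simp)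
  rw [htop] at h2
  simp at h2
  omega

end Pool.Agent.Results.MP_336050_an.NotMinimal
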